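import Pool.Agent.H44.MB5
import Pool.Agent.H44.MB6

open MeasureTheory Filter Topology Real Pool.Agent.H44.MB

theorem Pool.Agent.Results.MP_dfc2f8_pr.Q1False.result :
    ∃ p : unitInterval, (p : ℝ) = 3 / 4 ∧ ∃ c : ℝ, 0 < c ∧ ∃ᶠ n : ℕ in atTop,
      c ≤ (SimpleGraph.binomialRandom (Fin n) p).real {G | sizeMB G 1 < timeMB G 1} := by
  let p : unitInterval := ⟨3 / 4, by norm_num, by norm_num⟩
  have hq : (1 - (p : ℝ)) = 1 / 4 := by simp only [p]; norm_num
  set C : ℝ := 1 + 4 * exp 1 with hC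
  set D : ℝ := 16 * (1 + 4 * (4 * exp 1)) with hD
  have hC0 : 0 < C := by positivity
  have hD0 : 0 < D := by positivity
  refine ⟨p, rfl, 1 / (8 * C), by positivity, frequently_atTop.2 fun n0 => ?_⟩
  obtain ⟨k, ⟨-, E2, -, E4, -⟩, ⟨E7, E8, E9⟩, E1, E0⟩ :=
    ((conds (p := 3 / 4) (by norm_num) (by norm_num) (q := 1 - p) rfl).and
    ((conds2 (show 0 < 1 / (8 * C * (D + 1)) by positivity)).and ((eventually_ge_atTop 60).and
      (eventually_ge_atTop n0)))).exists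
  obtain ⟨h1, h2, h3, h4, h5, h6, h7⟩ := core2 hq rfl rfl E1 E2 E4
    (Nat.floor_le (by positivity)) E7
  set n := k ^ 2 * 4 ^ k with hn
  refine ⟨n, by omega, le_trans ?_ (le_G p _)⟩
  have key := prob2 (n := n) p (by omega) h1 (by positivity) _ _ _ rfl rfl h2 rfl h3 h4 h5 h6 h7
  have hN : (0 : ℝ) < n.choose k := by exact_mod_cast Nat.choose_pos (by omega)
  refine le_trans ?_ (key.trans (measureReal_mono fun ω hω =>
    det2 (by omega) (by omega) hω.2.2 (by positivity) hω.1 hω.2.1))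
  rw [← hC, ← hD]
  have hk : (0 : ℝ) < k := by exact_mod_cast (show 0 < k by omega)
  have a1 : D * (k : ℝ) ^ 4 * 2 ^ k / (n : ℝ) = D * (k ^ 2 * (1 / 2) ^ k) := by
    rw [hn]; push_cast
    rw [show (4 : ℝ) ^ k = 2 ^ k * 2 ^ k by rw [← mul_pow]; norm_num, one_div, inv_pow]
    field_simp
  have a2 := mul_le_mul_of_nonneg_left E8 hD0.le
  have a3 : D * (1 / (8 * C * (D + 1))) + 1 / (8 * C * (D + 1)) = 1 / (8 * C) := by field_simp
  have a4 : 1 / (4 * C) = 2 * (1 / (8 * C)) := by field_simp; norm_num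
  rw [a1]
  linarith
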